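import Pool.Agent.helper70.BND.SpecH

set_option autoImplicit false

open scoped Topology
open Finset

namespace Pool.Agent.BND.EX

theorem GLV : GLV_stmt := by
  intro H _ H' A th hL hn hpos hu
  refine ⟨hn, hpos, ?_, ?_⟩
  · intro j hj
    by_contra hcon
    obtain ⟨z, hz⟩ := hL.bas (fun _ => 1)
    have h1 := hz j hj
    have h2 : ∑ v ∈ range A.n, A.c j v * z v = 0 := by
      refine sum_eq_zero fun v hv => ?_
      have h3 : A.c j v = 0 := by
        by_contra h4
        exact hcon ⟨v, mem_range.1 hv, h4⟩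
      rw [h3, zero_mul]
    rw [h2] at h1
    exact zero_ne_one h1
  · intro j hj
    have h1 : ∑ v ∈ range A.n, ((A.h v : ℤ)) • th v ∈ H' := by
      have h2 : ∑ v ∈ range A.n, ((A.h v : ℤ)) • th v = ∑ v ∈ range A.n, A.h v • th v :=
        sum_congr rfl fun v _ => natCast_zsmul _ _
      rw [h2]
      exact hu
    exact (hL.mem (fun v => (A.h v : ℤ))).1 h1 j hj

end Pool.Agent.BND.EX
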